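import Pool.Agent.Helper34.GH.Pair
import Pool.Agent.Helper43.GH.Mach

/-!
Project GH, block P1: a `PK`-equivariant operator from the first kernel to the second extends.
-/

set_option linter.unusedSectionVars false
set_option linter.unusedVariables false

open Matrix Module

namespace GH

open MH

variable {m : Type*} [Fintype m] [DecidableEq m] {k : Type*} [Fintype k] [DecidableEq k]
  {P : Submodule ℂ (Matrix m m ℂ × Matrix k k ℂ)} {h₁ : Matrix m m ℂ} {E₁ : ℝ → Matrix m m ℂ} {Λ₁ : Finset ℝ}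
  {h₂ : Matrix k k ℂ} {E₂ : ℝ → Matrix k k ℂ} {Λ₂ : Finset ℝ}

/-- P1: a `PK`-equivariant operator from the first kernel to the second extends -/
theorem PG.ext (D : PG P h₁ E₁ Λ₁ h₂ E₂ Λ₂) (n1 : Nr1 P h₁ h₂) (n2 : Nr2 P h₁ h₂) (e1 : E₁ 0 ≠ 1) (e2 : E₂ 0 ≠ 1)
    (f1 : 4 ≤ finrank ℂ ((PK P E₁ E₂).map (LinearMap.fst ℂ _ _))) (f2 : 4 ≤ finrank ℂ ((PK P E₁ E₂).map (LinearMap.snd ℂ _ _)))
    {T : Matrix k m ℂ} (hT0 : T ≠ 0) (hT1 : E₂ 0 * T = T) (hT2 : T * E₁ 0 = T) (hT : ∀ p ∈ PK P E₁ E₂, p.2 * T = T * p.1) :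
    LinkT P :=
  PG.ext_aux34 D n1 n2 hT0 hT1 hT2 hT fun _ hC => (PG.gr34 D).mach (PG.fam34 D n1 n2) (PG.four34 f1 f2) hC

end GH
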