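import Pool.Agent.Helper43.GH.Defs2

/-!
Project GH, block P1 (auxiliary part): the Lie algebra `L34 P` of the block diagonal matrices `diag (p.1, p.2)`, `p ∈ P`, and the extension of
an intertwiner, from the statement `mach`.
-/

set_option linter.unusedSectionVars false
set_option linter.unusedVariables false

open Matrix Module

namespace GH

open MH

variable {m : Type*} [Fintype m] [DecidableEq m] {k : Type*} [Fintype k] [DecidableEq k]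
  {P : Submodule ℂ (Matrix m m ℂ × Matrix k k ℂ)} {h₁ : Matrix m m ℂ} {E₁ : ℝ → Matrix m m ℂ} {Λ₁ : Finset ℝ}
  {h₂ : Matrix k k ℂ} {E₂ : ℝ → Matrix k k ℂ} {Λ₂ : Finset ℝ}

/-- the block diagonal matrix of a pair -/
def dd34 (p : Matrix m m ℂ × Matrix k k ℂ) : Matrix (m ⊕ k) (m ⊕ k) ℂ := fromBlocks p.1 0 0 p.2

/-- the Lie algebra of the block diagonal matrices -/
def L34 (P : Submodule ℂ (Matrix m m ℂ × Matrix k k ℂ)) : Submodule ℂ (Matrix (m ⊕ k) (m ⊕ k) ℂ) where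
  carrier := {X | ∃ p ∈ P, X = dd34 p}
  add_mem' := by
    rintro a b ⟨p, hp, rfl⟩ ⟨q, hq, rfl⟩
    refine ⟨p + q, P.add_mem hp hq, ?_⟩
    unfold dd34
    rw [fromBlocks_add, add_zero, add_zero, Prod.fst_add, Prod.snd_add]
  zero_mem' := ⟨0, P.zero_mem, by
    unfold dd34
    rw [Prod.fst_zero, Prod.snd_zero, fromBlocks_zero]⟩
  smul_mem' := by
    rintro e a ⟨p, hp, rfl⟩
    refine ⟨e • p, P.smul_mem e hp, ?_⟩
    unfold dd34
    rw [fromBlocks_smul, smul_zero, smul_zero, Prod.smul_fst, Prod.smul_snd]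

/-- the spectral projections -/
def E34 (E₁ : ℝ → Matrix m m ℂ) (E₂ : ℝ → Matrix k k ℂ) (μ : ℝ) : Matrix (m ⊕ k) (m ⊕ k) ℂ :=
  fromBlocks (E₁ μ) 0 0 (E₂ μ)

/-- the Hermitian element -/
def h34 (h₁ : Matrix m m ℂ) (h₂ : Matrix k k ℂ) : Matrix (m ⊕ k) (m ⊕ k) ℂ := fromBlocks h₁ 0 0 h₂

/-- the two projections -/
def f34 (m k : Type*) [Fintype m] [DecidableEq m] [Fintype k] [DecidableEq k] (i : Fin 2) :
    Matrix (m ⊕ k) (m ⊕ k) ℂ :=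
  if i = 0 then fromBlocks 1 0 0 0 else fromBlocks 0 0 0 1

private lemma sum_blocks34 {α : Type*} (s : Finset α) (a : α → Matrix m m ℂ) (d : α → Matrix k k ℂ) :
    ∑ i ∈ s, fromBlocks (a i) 0 0 (d i) = fromBlocks (∑ i ∈ s, a i) 0 0 (∑ i ∈ s, d i) := by
  classical
  induction s using Finset.induction_on with
  | empty => simp
  | insert i s hi ih =>
    rw [Finset.sum_insert hi, Finset.sum_insert hi, Finset.sum_insert hi, ih, fromBlocks_add, add_zero, add_zero]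

lemma dd34_mul (p q : Matrix m m ℂ × Matrix k k ℂ) : dd34 p * dd34 q = dd34 (p * q) := by
  unfold dd34
  rw [fromBlocks_multiply]
  simp

lemma dd34_sub (p q : Matrix m m ℂ × Matrix k k ℂ) : dd34 p - dd34 q = dd34 (p - q) := by
  unfold dd34
  rw [sub_eq_add_neg, fromBlocks_neg, fromBlocks_add]
  simp [sub_eq_add_neg]

lemma dd34_smul (c : ℂ) (p : Matrix m m ℂ × Matrix k k ℂ) : dd34 (c • p) = c • dd34 p := by
  unfold dd34
  rw [fromBlocks_smul, smul_zero, smul_zero, Prod.smul_fst, Prod.smul_snd]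

lemma dd34_inj {p q : Matrix m m ℂ × Matrix k k ℂ} (h : dd34 p = dd34 q) : p = q := by
  unfold dd34 at h
  rw [fromBlocks_inj] at h
  exact Prod.ext h.1 h.2.2.2

lemma dd34_star (p : Matrix m m ℂ × Matrix k k ℂ) : (dd34 p)ᴴ = dd34 (p.1ᴴ, p.2ᴴ) := by
  unfold dd34
  rw [fromBlocks_conjTranspose, conjTranspose_zero, conjTranspose_zero]

lemma mem_L34 {p : Matrix m m ℂ × Matrix k k ℂ} : dd34 p ∈ L34 P ↔ p ∈ P := by
  constructor
  · rintro ⟨q, hq, h⟩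
    rw [dd34_inj h]
    exact hq
  · intro hp
    exact ⟨p, hp, rfl⟩

lemma spec34 (S₁ : Spec h₁ E₁ Λ₁) (S₂ : Spec h₂ E₂ Λ₂) : Spec (h34 h₁ h₂) (E34 E₁ E₂) (Λ₁ ∪ Λ₂) := by
  have hsum1 : ∀ g : ℝ → Matrix m m ℂ, (∀ μ, μ ∉ Λ₁ → g μ = 0) → ∑ μ ∈ Λ₁ ∪ Λ₂, g μ = ∑ μ ∈ Λ₁, g μ := by
    intro g hg
    exact (Finset.sum_subset Finset.subset_union_left fun μ _ hμ => hg μ hμ).symm
  have hsum2 : ∀ g : ℝ → Matrix k k ℂ, (∀ μ, μ ∉ Λ₂ → g μ = 0) → ∑ μ ∈ Λ₁ ∪ Λ₂, g μ = ∑ μ ∈ Λ₂, g μ := by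
    intro g hg
    exact (Finset.sum_subset Finset.subset_union_right fun μ _ hμ => hg μ hμ).symm
  refine ⟨?_, ?_, ?_, ?_, ?_⟩
  · intro μ
    unfold E34
    rw [fromBlocks_conjTranspose, S₁.star, S₂.star, conjTranspose_zero, conjTranspose_zero]
  · intro μ ν
    unfold E34
    rw [fromBlocks_multiply]
    simp only [Matrix.mul_zero, Matrix.zero_mul, add_zero, zero_add]
    rw [S₁.mul, S₂.mul]
    by_cases hμν : μ = ν
    · rw [if_pos hμν, if_pos hμν, if_pos hμν]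
    · rw [if_neg hμν, if_neg hμν, if_neg hμν, fromBlocks_zero]
  · intro μ hμ
    rw [Finset.mem_union, not_or] at hμ
    unfold E34
    rw [S₁.supp μ hμ.1, S₂.supp μ hμ.2, fromBlocks_zero]
  · unfold E34
    rw [sum_blocks34, hsum1 E₁ S₁.supp, hsum2 E₂ S₂.supp, S₁.sum, S₂.sum, fromBlocks_one]
  · unfold E34 h34
    have h0 : ∀ μ : ℝ, (μ : ℂ) • fromBlocks (E₁ μ) 0 0 (E₂ μ) =
        (fromBlocks ((μ : ℂ) • E₁ μ) 0 0 ((μ : ℂ) • (E₂ μ)) : Matrix (m ⊕ k) (m ⊕ k) ℂ) := by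
      intro μ
      rw [fromBlocks_smul, smul_zero, smul_zero]
    simp only [h0]
    rw [sum_blocks34, hsum1 (fun μ => (μ : ℂ) • E₁ μ) (fun μ hμ => by rw [S₁.supp μ hμ, smul_zero]),
      hsum2 (fun μ => (μ : ℂ) • E₂ μ) (fun μ hμ => by rw [S₂.supp μ hμ, smul_zero]), ← S₁.eq, ← S₂.eq]

lemma PG.gr34 (D : PG P h₁ E₁ Λ₁ h₂ E₂ Λ₂) : Gr (L34 P) (h34 h₁ h₂) (E34 E₁ E₂) (Λ₁ ∪ Λ₂) where
  spec := spec34 D.spec1 D.spec2
  br := by
    rintro _ ⟨p, hp, rfl⟩ _ ⟨q, hq, rfl⟩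
    rw [dd34_mul, dd34_mul, dd34_sub]
    exact mem_L34.2 (D.br p hp q hq)
  st := by
    rintro _ ⟨p, hp, rfl⟩
    rw [dd34_star]
    exact mem_L34.2 (D.st p hp)
  mem := mem_L34.2 D.mem

/-- elements of degree `ν` -/
lemma mem_Ld34 {ν : ℝ} {p : Matrix m m ℂ × Matrix k k ℂ} : dd34 p ∈ Ld (L34 P) (h34 h₁ h₂) ν ↔ p ∈ Pd P h₁ h₂ ν := by
  have h1 : h34 h₁ h₂ = dd34 (h₁, h₂) := rfl
  have h2 : dd34 p ∈ Ld (L34 P) (h34 h₁ h₂) ν ↔ dd34 p ∈ L34 P ∧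
      h34 h₁ h₂ * dd34 p - dd34 p * h34 h₁ h₂ = (ν : ℂ) • dd34 p := Iff.rfl
  rw [h2, mem_L34, h1, dd34_mul, dd34_mul, dd34_sub, ← dd34_smul]
  constructor
  · rintro ⟨h3, h4⟩
    have h5 := dd34_inj h4
    exact ⟨h3, congrArg Prod.fst h5, congrArg Prod.snd h5⟩
  · rintro ⟨h3, h4, h5⟩
    refine ⟨h3, ?_⟩
    congr 1
    exact Prod.ext h4 h5

/-- elements on the kernel -/
lemma mem_KK34 {p : Matrix m m ℂ × Matrix k k ℂ} : dd34 p ∈ KK (L34 P) (E34 E₁ E₂) ↔ p ∈ PK P E₁ E₂ := by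
  have h1 : E34 E₁ E₂ 0 = dd34 (E₁ 0, E₂ 0) := rfl
  have h2 : dd34 p ∈ KK (L34 P) (E34 E₁ E₂) ↔ dd34 p ∈ L34 P ∧ E34 E₁ E₂ 0 * dd34 p * E34 E₁ E₂ 0 = dd34 p := Iff.rfl
  rw [h2, mem_L34, h1, dd34_mul, dd34_mul]
  constructor
  · rintro ⟨h3, h4⟩
    have h5 := dd34_inj h4
    exact ⟨h3, congrArg Prod.fst h5, congrArg Prod.snd h5⟩
  · rintro ⟨h3, h4, h5⟩
    refine ⟨h3, ?_⟩
    congr 1
    exact Prod.ext h4 h5

lemma PG.fam34 (D : PG P h₁ E₁ Λ₁ h₂ E₂ Λ₂) (n1 : Nr1 P h₁ h₂) (n2 : Nr2 P h₁ h₂) : Fam (L34 P) (f34 m k) where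
  mul := by
    intro i j
    fin_cases i <;> fin_cases j <;> simp [f34, fromBlocks_multiply]
  star := by
    intro i
    fin_cases i <;> simp [f34, fromBlocks_conjTranspose]
  sum := by
    rw [Fin.sum_univ_two]
    simp [f34, fromBlocks_add, fromBlocks_one]
  mem := by
    intro i
    fin_cases i
    · exact ⟨(1, 0), D.one1, by simp [f34, dd34]⟩
    · exact ⟨(0, 1), D.one2, by simp [f34, dd34]⟩
  cen := by
    rintro i _ ⟨p, hp, rfl⟩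
    fin_cases i <;> simp [f34, dd34, fromBlocks_multiply]
  com := by
    intro T hT
    obtain ⟨a, b, c, d, rfl⟩ : ∃ a b c d, T = fromBlocks a b c d :=
      ⟨T.toBlocks₁₁, T.toBlocks₁₂, T.toBlocks₂₁, T.toBlocks₂₂, (fromBlocks_toBlocks T).symm⟩
    have e1 := hT (f34 m k 0) ⟨(1, 0), D.one1, by simp [f34, dd34]⟩
    simp only [f34, if_true, fromBlocks_multiply, mul_one, Matrix.mul_one, Matrix.one_mul, Matrix.mul_zero,
      Matrix.zero_mul, mul_zero, add_zero, one_mul, zero_mul] at e1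
    rw [fromBlocks_inj] at e1
    obtain ⟨-, hb, hc, -⟩ := e1
    have e2 : ∀ p ∈ P, a * p.1 = p.1 * a ∧ d * p.2 = p.2 * d := by
      intro p hp
      have e3 := hT (dd34 p) (mem_L34.2 hp)
      unfold dd34 at e3
      rw [fromBlocks_multiply, fromBlocks_multiply, fromBlocks_inj] at e3
      obtain ⟨e4, -, -, e5⟩ := e3
      simp only [Matrix.mul_zero, Matrix.zero_mul, add_zero, zero_add] at e4 e5
      exact ⟨e4, e5⟩
    obtain ⟨x, hx⟩ := n1 a (e2 _ D.mem).1 fun ν _ p hp => (e2 p hp.1).1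
    obtain ⟨y, hy⟩ := n2 d (e2 _ D.mem).2 fun ν _ p hp => (e2 p hp.1).2
    refine ⟨![x, y], ?_⟩
    rw [Fin.sum_univ_two, hx, hy, ← hb, hc]
    simp [f34, fromBlocks_smul, fromBlocks_add]

lemma PG.four34 (f1 : 4 ≤ finrank ℂ ((PK P E₁ E₂).map (LinearMap.fst ℂ _ _)))
    (f2 : 4 ≤ finrank ℂ ((PK P E₁ E₂).map (LinearMap.snd ℂ _ _))) : Four (L34 P) (E34 E₁ E₂) (f34 m k) := by
  have hfst : ∀ x ∈ (PK P E₁ E₂).map (LinearMap.fst ℂ (Matrix m m ℂ) (Matrix k k ℂ)),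
      (fromBlocks x 0 0 0 : Matrix (m ⊕ k) (m ⊕ k) ℂ) ∈
        (KK (L34 P) (E34 E₁ E₂)).map (LinearMap.mulLeft ℂ (f34 m k 0)) := by
    rintro _ ⟨p, hp, rfl⟩
    refine ⟨dd34 p, mem_KK34.2 hp, ?_⟩
    simp [f34, dd34, fromBlocks_multiply]
  have hsnd : ∀ x ∈ (PK P E₁ E₂).map (LinearMap.snd ℂ (Matrix m m ℂ) (Matrix k k ℂ)),
      (fromBlocks 0 0 0 x : Matrix (m ⊕ k) (m ⊕ k) ℂ) ∈
        (KK (L34 P) (E34 E₁ E₂)).map (LinearMap.mulLeft ℂ (f34 m k 1)) := by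
    rintro _ ⟨p, hp, rfl⟩
    refine ⟨dd34 p, mem_KK34.2 hp, ?_⟩
    simp [f34, dd34, fromBlocks_multiply]
  let φ₁ : Matrix m m ℂ →ₗ[ℂ] Matrix (m ⊕ k) (m ⊕ k) ℂ :=
    { toFun := fun z => fromBlocks z 0 0 0
      map_add' := fun x y => by rw [fromBlocks_add, add_zero, add_zero, add_zero]
      map_smul' := fun c x => by rw [RingHom.id_apply, fromBlocks_smul, smul_zero, smul_zero, smul_zero] }
  let φ₂ : Matrix k k ℂ →ₗ[ℂ] Matrix (m ⊕ k) (m ⊕ k) ℂ :=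
    { toFun := fun z => fromBlocks 0 0 0 z
      map_add' := fun x y => by rw [fromBlocks_add, add_zero, add_zero, add_zero]
      map_smul' := fun c x => by rw [RingHom.id_apply, fromBlocks_smul, smul_zero, smul_zero, smul_zero] }
  intro i
  fin_cases i
  · let g : (PK P E₁ E₂).map (LinearMap.fst ℂ (Matrix m m ℂ) (Matrix k k ℂ)) →ₗ[ℂ]
        (KK (L34 P) (E34 E₁ E₂)).map (LinearMap.mulLeft ℂ (f34 m k 0)) :=
      (φ₁.domRestrict _).codRestrict _ fun z => hfst z.1 z.2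
    have hg : Function.Injective g := by
      intro x y hxy
      have e : φ₁ (x : Matrix m m ℂ) = φ₁ (y : Matrix m m ℂ) := congrArg Subtype.val hxy
      have e' : (fromBlocks (x : Matrix m m ℂ) 0 0 0 : Matrix (m ⊕ k) (m ⊕ k) ℂ) = fromBlocks (y : Matrix m m ℂ) 0 0 0 := e
      rw [fromBlocks_inj] at e'
      exact Subtype.ext e'.1
    exact f1.trans (LinearMap.finrank_le_finrank_of_injective hg)
  · let g : (PK P E₁ E₂).map (LinearMap.snd ℂ (Matrix m m ℂ) (Matrix k k ℂ)) →ₗ[ℂ]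
        (KK (L34 P) (E34 E₁ E₂)).map (LinearMap.mulLeft ℂ (f34 m k 1)) :=
      (φ₂.domRestrict _).codRestrict _ fun z => hsnd z.1 z.2
    have hg : Function.Injective g := by
      intro x y hxy
      have e : φ₂ (x : Matrix k k ℂ) = φ₂ (y : Matrix k k ℂ) := congrArg Subtype.val hxy
      have e' : (fromBlocks 0 0 0 (x : Matrix k k ℂ) : Matrix (m ⊕ k) (m ⊕ k) ℂ) = fromBlocks 0 0 0 (y : Matrix k k ℂ) := e
      rw [fromBlocks_inj] at e'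
      exact Subtype.ext e'.2.2.2
    exact f2.trans (LinearMap.finrank_le_finrank_of_injective hg)

/-- the intertwiners of the pairs of nonzero degree -/
private def Itw34 (P : Submodule ℂ (Matrix m m ℂ × Matrix k k ℂ)) (h₁ : Matrix m m ℂ) (h₂ : Matrix k k ℂ)
    (S : Matrix k m ℂ) : Prop :=
  S * h₁ = h₂ * S ∧ ∀ ν : ℝ, ν ≠ 0 → ∀ p ∈ Pd P h₁ h₂ ν, S * p.1 = p.2 * S

private lemma star_Pd34 (D : PG P h₁ E₁ Λ₁ h₂ E₂ Λ₂) {ν : ℝ} {p : Matrix m m ℂ × Matrix k k ℂ}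
    (hp : p ∈ Pd P h₁ h₂ ν) : (p.1ᴴ, p.2ᴴ) ∈ Pd P h₁ h₂ (-ν) := by
  have h1 := (PG.gr34 D).star_Ld (mem_Ld34.2 hp)
  rw [dd34_star] at h1
  exact mem_Ld34.1 h1

private lemma itw_left34 (D : PG P h₁ E₁ Λ₁ h₂ E₂ Λ₂) (n1 : Nr1 P h₁ h₂) {S S' : Matrix k m ℂ}
    (hS : Itw34 P h₁ h₂ S) (hS' : Itw34 P h₁ h₂ S') : ∃ c : ℂ, S'ᴴ * S = c • (1 : Matrix m m ℂ) := by
  have hh1 : h₁ᴴ = h₁ := D.spec1.hh
  have hh2 : h₂ᴴ = h₂ := D.spec2.hh
  refine n1 _ ?_ ?_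
  · have e1 := congrArg Matrix.conjTranspose hS'.1
    rw [conjTranspose_mul, conjTranspose_mul, hh1, hh2] at e1
    rw [Matrix.mul_assoc, hS.1, ← Matrix.mul_assoc, ← e1, Matrix.mul_assoc]
  · intro ν hν p hp
    have e1 := hS'.2 (-ν) (neg_ne_zero.2 hν) _ (star_Pd34 D hp)
    have e2 := congrArg Matrix.conjTranspose e1
    rw [conjTranspose_mul, conjTranspose_mul, conjTranspose_conjTranspose, conjTranspose_conjTranspose] at e2
    rw [Matrix.mul_assoc, hS.2 ν hν p hp, ← Matrix.mul_assoc, ← e2, Matrix.mul_assoc]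

private lemma itw_right34 (D : PG P h₁ E₁ Λ₁ h₂ E₂ Λ₂) (n2 : Nr2 P h₁ h₂) {S S' : Matrix k m ℂ}
    (hS : Itw34 P h₁ h₂ S) (hS' : Itw34 P h₁ h₂ S') : ∃ c : ℂ, S * S'ᴴ = c • (1 : Matrix k k ℂ) := by
  have hh1 : h₁ᴴ = h₁ := D.spec1.hh
  have hh2 : h₂ᴴ = h₂ := D.spec2.hh
  refine n2 _ ?_ ?_
  · have e1 := congrArg Matrix.conjTranspose hS'.1
    rw [conjTranspose_mul, conjTranspose_mul, hh1, hh2] at e1
    rw [Matrix.mul_assoc, ← e1, ← Matrix.mul_assoc, hS.1, Matrix.mul_assoc]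
  · intro ν hν p hp
    have e1 := hS'.2 (-ν) (neg_ne_zero.2 hν) _ (star_Pd34 D hp)
    have e2 := congrArg Matrix.conjTranspose e1
    rw [conjTranspose_mul, conjTranspose_mul, conjTranspose_conjTranspose, conjTranspose_conjTranspose] at e2
    rw [Matrix.mul_assoc, ← e2, ← Matrix.mul_assoc, hS.2 ν hν p hp, Matrix.mul_assoc]

open scoped ComplexOrder in
private lemma itw_smul34 (D : PG P h₁ E₁ Λ₁ h₂ E₂ Λ₂) (n1 : Nr1 P h₁ h₂) (n2 : Nr2 P h₁ h₂) {B S : Matrix k m ℂ}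
    (hB0 : B ≠ 0) (hB : Itw34 P h₁ h₂ B) (hS : Itw34 P h₁ h₂ S) : ∃ c : ℂ, S = c • B := by
  obtain ⟨c, hc⟩ := itw_left34 D n1 hS hB
  obtain ⟨d, hd⟩ := itw_right34 D n2 hB hB
  have hd0 : d ≠ 0 := by
    rintro rfl
    rw [zero_smul] at hd
    exact hB0 (Matrix.self_mul_conjTranspose_eq_zero.1 hd)
  refine ⟨d⁻¹ * c, ?_⟩
  have e1 : B * Bᴴ * S = B * (Bᴴ * S) := Matrix.mul_assoc _ _ _
  rw [hc, hd, Matrix.smul_mul, Matrix.one_mul, Matrix.mul_smul, Matrix.mul_one] at e1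
  rw [mul_smul, ← e1, smul_smul, inv_mul_cancel₀ hd0, one_smul]

/-- the block P1 from the statement `mach` for the block diagonal matrices -/
theorem PG.ext_aux34 (D : PG P h₁ E₁ Λ₁ h₂ E₂ Λ₂) (n1 : Nr1 P h₁ h₂) (n2 : Nr2 P h₁ h₂)
    {T : Matrix k m ℂ} (hT0 : T ≠ 0) (hT1 : E₂ 0 * T = T) (hT2 : T * E₁ 0 = T) (hT : ∀ p ∈ PK P E₁ E₂, p.2 * T = T * p.1)
    (mach : ∀ T : Matrix (m ⊕ k) (m ⊕ k) ℂ, Ck (L34 P) (E34 E₁ E₂) T → ∃ T', Ext (L34 P) (h34 h₁ h₂) (E34 E₁ E₂) T T') :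
    LinkT P := by
  have G := PG.gr34 D
  have hC : Ck (L34 P) (E34 E₁ E₂) (fromBlocks 0 0 T 0) := by
    refine ⟨?_, ?_, ?_⟩
    · unfold E34
      rw [fromBlocks_multiply]
      simp [hT1]
    · unfold E34
      rw [fromBlocks_multiply]
      simp [hT2]
    · rintro z hz
      obtain ⟨⟨p, hp, rfl⟩, -⟩ := id hz
      have e := hT p (mem_KK34.1 hz)
      unfold dd34
      rw [fromBlocks_multiply, fromBlocks_multiply]
      simp only [Matrix.mul_zero, Matrix.zero_mul, add_zero, zero_add]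
      rw [e]
  obtain ⟨T', hT1', hT2', hT3', hT4'⟩ := mach _ hC
  obtain ⟨a, b, B, d, rfl⟩ : ∃ a b c d, T' = fromBlocks a b c d :=
    ⟨T'.toBlocks₁₁, T'.toBlocks₁₂, T'.toBlocks₂₁, T'.toBlocks₂₂, (fromBlocks_toBlocks T').symm⟩
  have hB1 : B * E₁ 0 = T := by
    unfold E34 at hT1'
    rw [fromBlocks_multiply, fromBlocks_inj] at hT1'
    simpa using hT1'.2.2.1
  have hB : Itw34 P h₁ h₂ B := by
    refine ⟨?_, ?_⟩
    · unfold h34 at hT3'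
      rw [fromBlocks_multiply, fromBlocks_multiply, fromBlocks_inj] at hT3'
      simpa using hT3'.2.2.1
    · intro ν hν p hp
      have e := hT4' ν hν _ (mem_Ld34.2 hp)
      unfold dd34 at e
      rw [fromBlocks_multiply, fromBlocks_multiply, fromBlocks_inj] at e
      simpa using e.2.2.1
  have hB0 : B ≠ 0 := by
    rintro rfl
    rw [Matrix.zero_mul] at hB1
    exact hT0 hB1.symm
  refine ⟨B, hB0, ?_⟩
  -- degree zero
  have h0 : ∀ p ∈ Pd P h₁ h₂ 0, ∃ c : ℂ, p.2 * B - B * p.1 = c • B := by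
    intro p hp
    obtain ⟨hpP, hp1, hp2⟩ := id hp
    rw [Complex.ofReal_zero, zero_smul, sub_eq_zero] at hp1 hp2
    refine itw_smul34 D n1 n2 hB0 hB ⟨?_, ?_⟩
    · rw [Matrix.sub_mul, Matrix.mul_sub, Matrix.mul_assoc, hB.1, ← Matrix.mul_assoc, ← hp2, Matrix.mul_assoc,
        Matrix.mul_assoc B p.1 h₁, ← hp1, ← Matrix.mul_assoc B h₁ p.1, hB.1, Matrix.mul_assoc h₂ B p.1]
    · intro ν hν q hq
      have e1 := G.br_Ld (mem_Ld34.2 hp) (mem_Ld34.2 hq)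
      rw [zero_add, dd34_mul, dd34_mul, dd34_sub] at e1
      have e2 := hB.2 ν hν _ (mem_Ld34.1 e1)
      have e3 := hB.2 ν hν q hq
      rw [Prod.fst_sub, Prod.snd_sub, Prod.fst_mul, Prod.fst_mul, Prod.snd_mul, Prod.snd_mul, Matrix.mul_sub,
        Matrix.sub_mul] at e2
      have a1 : p.2 * B * q.1 = p.2 * q.2 * B := by rw [Matrix.mul_assoc, e3, Matrix.mul_assoc]
      have a2 : q.2 * (B * p.1) = B * (q.1 * p.1) := by rw [← Matrix.mul_assoc, ← e3, Matrix.mul_assoc]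
      rw [Matrix.sub_mul, Matrix.mul_sub, a1, a2, Matrix.mul_assoc B p.1 q.1, ← Matrix.mul_assoc q.2 p.2 B]
      rw [← sub_eq_zero] at e2 ⊢
      rw [← neg_zero, ← e2]
      abel
  intro p hp
  have key : ∀ X ∈ L34 P, ∃ c : ℂ, X.toBlocks₂₂ * B - B * X.toBlocks₁₁ = c • B := by
    intro X hX
    refine G.induct (p := fun X => ∃ c : ℂ, X.toBlocks₂₂ * B - B * X.toBlocks₁₁ = c • B) ?_ ?_ ?_ ?_ hX
    · rintro x hx
      obtain ⟨⟨q, hq, rfl⟩, -⟩ := id hx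
      exact h0 q (mem_Ld34.1 hx)
    · rintro ν hν x hx
      obtain ⟨⟨q, hq, rfl⟩, -⟩ := id hx
      refine ⟨0, ?_⟩
      have e := hB.2 ν hν q (mem_Ld34.1 hx)
      change q.2 * B - B * q.1 = _
      rw [e, sub_self, zero_smul]
    · refine ⟨0, ?_⟩
      have e1 : (0 : Matrix (m ⊕ k) (m ⊕ k) ℂ).toBlocks₂₂ = 0 := rfl
      have e2 : (0 : Matrix (m ⊕ k) (m ⊕ k) ℂ).toBlocks₁₁ = 0 := rfl
      rw [e1, e2, Matrix.zero_mul, Matrix.mul_zero, sub_zero, zero_smul]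
    · rintro x y ⟨c, hc⟩ ⟨c', hc'⟩
      refine ⟨c + c', ?_⟩
      have e1 : (x + y).toBlocks₂₂ = x.toBlocks₂₂ + y.toBlocks₂₂ := rfl
      have e2 : (x + y).toBlocks₁₁ = x.toBlocks₁₁ + y.toBlocks₁₁ := rfl
      rw [e1, e2, Matrix.add_mul, Matrix.mul_add, add_smul, ← hc, ← hc']
      abel
  exact key (dd34 p) (mem_L34.2 hp)

end GH
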